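import Mathlib
import Pool.Agent.H406R3.CatMeasure

/-!
# Catalan's constant `G = β(2)` and `β(4)`

One of the numbers `G = ∑ (-1)^j/(2j+1)^2` and `β(4) = ∑ (-1)^j/(2j+1)^4` is irrational, with a
simultaneous measure.
-/

set_option autoImplicit false

namespace Pool.Agent.Results.MP_631c0d_nt.BetaTwoBetaFour

/-- **Simultaneous approximation of `G` and `β(4)`.** There is `C > 0` such that for all integers
`q ≥ 2`, `a`, `b` one of `|G - a/q|`, `|β(4) - b/q|` exceeds `exp (-C log q log (1 + log q))`; in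
particular one of the two numbers is irrational. -/
theorem result :
    (∃ C : ℝ, 0 < C ∧ ∀ q : ℕ, 2 ≤ q → ∀ a b : ℤ,
      Real.exp (-(C * Real.log q * Real.log (1 + Real.log q))) <
        max |(∑' j : ℕ, (-1 : ℝ) ^ j / (2 * (j : ℝ) + 1) ^ 2) - (a : ℝ) / (q : ℝ)|
          |(∑' j : ℕ, (-1 : ℝ) ^ j / (2 * (j : ℝ) + 1) ^ 4) - (b : ℝ) / (q : ℝ)|) ∧
    (Irrational (∑' j : ℕ, (-1 : ℝ) ^ j / (2 * (j : ℝ) + 1) ^ 2) ∨
      Irrational (∑' j : ℕ, (-1 : ℝ) ^ j / (2 * (j : ℝ) + 1) ^ 4)) := by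
  have h := Pool.Agent.H406R3.cat_measure
  refine ⟨h, ?_⟩
  unfold Pool.Agent.H256R2.BM.S_FIN at h
  generalize (∑' j : ℕ, (-1 : ℝ) ^ j / (2 * (j : ℝ) + 1) ^ 2) = x at h ⊢
  generalize (∑' j : ℕ, (-1 : ℝ) ^ j / (2 * (j : ℝ) + 1) ^ 4) = y at h ⊢
  obtain ⟨C, hC, h⟩ := h
  by_contra hcon
  push Not at hcon
  obtain ⟨h1, h2⟩ := hcon
  unfold Irrational at h1 h2
  push Not at h1 h2
  obtain ⟨r, rfl⟩ := h1
  obtain ⟨s, rfl⟩ := h2
  have h3 := h (2 * (r.den * s.den)) (by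
    have := r.den_pos; have := s.den_pos; nlinarith [Nat.mul_pos r.den_pos s.den_pos])
    (2 * (r.num * s.den)) (2 * (s.num * r.den))
  have hr : (r : ℝ) = r.num / r.den := by exact_mod_cast (Rat.num_div_den r).symm
  have hs : (s : ℝ) = s.num / s.den := by exact_mod_cast (Rat.num_div_den s).symm
  have hrd : (r.den : ℝ) ≠ 0 := by exact_mod_cast r.den_ne_zero
  have hsd : (s.den : ℝ) ≠ 0 := by exact_mod_cast s.den_ne_zero
  have e1 : (r : ℝ) - ((2 * (r.num * s.den) : ℤ) : ℝ) / ((2 * (r.den * s.den) : ℕ) : ℝ) = 0 := by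
    rw [hr]
    push_cast
    field_simp
    ring
  have e2 : (s : ℝ) - ((2 * (s.num * r.den) : ℤ) : ℝ) / ((2 * (r.den * s.den) : ℕ) : ℝ) = 0 := by
    rw [hs]
    push_cast
    field_simp
    ring
  rw [e1, e2, abs_zero, max_self] at h3
  exact absurd h3 (not_lt.2 (Real.exp_pos _).le)

end Pool.Agent.Results.MP_631c0d_nt.BetaTwoBetaFour
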