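import Pool.Agent.TH900.QM.Meas

/-!
# Catalan's constant and `π²`: `8 G ± 5 π² / 6` are irrational, with an irrationality measure

`G = 1 - 1/9 + 1/25 - ...` is Catalan's constant.  It is not known that `G` is irrational, and not that
`1, π², G` are linearly independent over `ℚ`, as they are if `G` and `π` are algebraically independent.  We
show that the two numbers

`8 G + 5 π² / 6 = ζ(2, 1/4) - ζ(2)`, `5 π² / 6 - 8 G = ζ(2, 3/4) - ζ(2)`

are irrational and not Liouville numbers: `|8 G ± 5 π² / 6 - a / b| ≥ c / b ^ 586`.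

The proof is in the starting files `Pool.Agent.H397R2.QG`, `Pool.Agent.TH900.QM` (Padé approximation
determinants of prime order `n` and the product formula); this file states the result.
-/

set_option autoImplicit false

namespace Pool.Agent.Results.MP_631c0d_nt.CatalanAndPiSquared

/-- Catalan's constant -/
noncomputable def G : ℝ := ∑' j : ℕ, (-1 : ℝ) ^ j / (2 * (j : ℝ) + 1) ^ 2

/-- a positive lower bound `c / b ^ e` for the distance to the rational numbers implies irrationality -/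
theorem irr_of_measure {x c : ℝ} (hc : 0 < c) {e : ℕ}
    (h : ∀ (a : ℤ) (b : ℕ), 0 < b → c / (b : ℝ) ^ e ≤ |x - (a : ℝ) / b|) : Irrational x := by
  rintro ⟨q, hq⟩
  have h1 := h q.num q.den q.pos
  have h2 : (q.num : ℝ) / (q.den : ℝ) = x := by
    rw [← hq]
    exact_mod_cast Rat.num_div_den q
  rw [h2, sub_self, abs_zero] at h1
  have h3 : (0 : ℝ) < q.den := by exact_mod_cast q.pos
  have h4 : 0 < c / (q.den : ℝ) ^ e := by positivity
  linarith

/-- `8 G + 5 π² / 6 = ∑ (1 / (j + 1/4)² - 1 / (j + 1)²)` and `5 π² / 6 - 8 G = ∑ (1 / (j + 3/4)² - 1 / (j + 1)²)`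
are irrational, and there is a `c > 0` such that the distance of both numbers to every rational number `a / b`
is at least `c / b ^ 586`.  In particular `1` and `8 G + 5 π² / 6`, and `1` and `8 G - 5 π² / 6`, are
linearly independent over `ℚ`. -/
theorem result :
    (∑' j : ℕ, (1 / ((j : ℝ) + 1 / 4) ^ 2 - 1 / ((j : ℝ) + 1) ^ 2) = 8 * G + 5 * Real.pi ^ 2 / 6 ∧
      ∑' j : ℕ, (1 / ((j : ℝ) + 3 / 4) ^ 2 - 1 / ((j : ℝ) + 1) ^ 2) = 5 * Real.pi ^ 2 / 6 - 8 * G) ∧
    (Irrational (8 * G + 5 * Real.pi ^ 2 / 6) ∧ Irrational (8 * G - 5 * Real.pi ^ 2 / 6)) ∧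
    ∃ c : ℝ, 0 < c ∧ ∀ (a : ℤ) (b : ℕ), 0 < b →
      c / (b : ℝ) ^ 586 ≤ |8 * G + 5 * Real.pi ^ 2 / 6 - (a : ℝ) / b| ∧
      c / (b : ℝ) ^ 586 ≤ |8 * G - 5 * Real.pi ^ 2 / 6 - (a : ℝ) / b| := by
  obtain ⟨c1, hc1, h1⟩ := Pool.Agent.TH900.QM.main 1 (Or.inl rfl)
  obtain ⟨c2, hc2, h2⟩ := Pool.Agent.TH900.QM.main (-1) (Or.inr rfl)
  have hG : Pool.Agent.H397R2.QG.Cat = G := rfl
  rw [hG] at h1 h2
  have e1 : ∀ x : ℝ, 8 * G + 1 * (5 * Real.pi ^ 2 / 6) - x = 8 * G + 5 * Real.pi ^ 2 / 6 - x := by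
    intro x; ring
  have e2 : ∀ x : ℝ, 8 * G + -1 * (5 * Real.pi ^ 2 / 6) - x = 8 * G - 5 * Real.pi ^ 2 / 6 - x := by
    intro x; ring
  simp only [e1] at h1
  simp only [e2] at h2
  refine ⟨⟨?_, ?_⟩, ⟨irr_of_measure hc1 h1, irr_of_measure hc2 h2⟩,
    min c1 c2, lt_min hc1 hc2, fun a b hb => ⟨?_, ?_⟩⟩
  · have h := Pool.Agent.H397R2.QG.Z0_theta1
    rw [hG] at h
    rw [← h]
    unfold Pool.Agent.H397R2.QG.theta
    refine tsum_congr fun j => ?_
    norm_num
  · have h := Pool.Agent.H397R2.QG.Z0_theta3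
    rw [hG] at h
    rw [← h]
    unfold Pool.Agent.H397R2.QG.theta
    refine tsum_congr fun j => ?_
    norm_num
  · refine le_trans ?_ (h1 a b hb)
    gcongr
    exact min_le_left _ _
  · refine le_trans ?_ (h2 a b hb)
    gcongr
    exact min_le_right _ _

end Pool.Agent.Results.MP_631c0d_nt.CatalanAndPiSquared
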